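import Pool.Agent.EHW.Grp

/-!
# EHW (MP_7d1a15_lc): cutting flagged lists with a common beginning and a common end
-/

set_option autoImplicit false

namespace Pool.Agent.EHW

open Pool.Agent.EHD

/-- the items of a block -/
def itm {α : Type*} (g : α × List α) : List α := g.1 :: g.2

lemma cut_no_flag {α : Type*} (P V : List (α × Bool)) (h : nfl P = 0) :
    (cut (P ++ V)).1 = P.map Prod.fst ++ (cut V).1 := by
  induction P with
  | nil => rfl
  | cons p l ih =>
    obtain ⟨a, b⟩ := p
    cases b
    · simp only [nfl_cons_false] at h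
      simp [cut, ih h]
    · simp at h

lemma cut_len {α : Type*} (P : List (α × Bool)) : ∃ Q, ∀ V, ∃ T0,
    (cut (P ++ V)).2 = Q ++ (T0 ++ (cut V).2) ∧
    ∀ M, (∀ g ∈ (cut (P ++ V)).2, g.2.length ≤ M) →
      P.length ≤ (cut (P ++ V)).1.length + (Q.map itm).flatten.length + (M + 1) := by
  induction P with
  | nil => exact ⟨[], fun V => ⟨[], by simp, fun M _ => by simp⟩⟩
  | cons p P ih =>
    obtain ⟨a, b⟩ := p
    obtain ⟨Q, hQ⟩ := ih
    cases b
    · refine ⟨Q, fun V => ?_⟩
      obtain ⟨T0, h1, h2⟩ := hQ V
      refine ⟨T0, by simp [cut, h1], fun M hM => ?_⟩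
      have h3 := h2 M (by simpa [cut] using hM)
      simp only [List.cons_append, cut, List.length_cons]
      omega
    · rcases Nat.eq_zero_or_pos (nfl P) with h0 | h0
      · refine ⟨[], fun V => ⟨[(a, (cut (P ++ V)).1)], ?_, fun M hM => ?_⟩⟩
        · obtain ⟨Z, hZ, hl⟩ := cut_suffix P V
          rw [h0, List.length_eq_zero_iff] at hl
          subst hl
          simp [cut, hZ]
        · have h1 := hM (a, (cut (P ++ V)).1) (by simp [cut])
          have h2 := congrArg List.length (cut_no_flag P V h0)
          rw [List.length_append, List.length_map] at h2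
          simp only at h1
          simp only [List.length_cons]
          omega
      · refine ⟨(a, (cut P).1) :: Q, fun V => ?_⟩
        obtain ⟨T0, h1, h2⟩ := hQ V
        refine ⟨T0, by simp [cut, h1, cut_fst_append P V h0], fun M hM => ?_⟩
        have h3 := h2 M (by
          intro g hg
          apply hM
          simp only [List.cons_append, cut]
          exact List.mem_cons_of_mem _ hg)
        rw [cut_fst_append P V h0] at h3
        simp only [List.map_cons, List.flatten_cons, List.length_append, itm, List.length_cons]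
          at h3 ⊢
        omega

lemma cut_suf_len {α : Type*} (X S : List (α × Bool)) (M : ℕ)
    (h1 : (cut (X ++ S)).1.length ≤ M) (h2 : ∀ g ∈ (cut (X ++ S)).2, g.2.length ≤ M) :
    (cut S).1.length ≤ M := by
  induction X with
  | nil => exact h1
  | cons p X ih =>
    obtain ⟨a, b⟩ := p
    cases b
    · simp only [List.cons_append, cut, List.length_cons] at h1 h2
      exact ih (by omega) h2
    · simp only [List.cons_append, cut] at h1 h2
      exact ih (h2 (a, (cut (X ++ S)).1) (by simp)) (fun g hg => h2 g (by simp [hg]))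

lemma near_blocks {α : Type*} (P e e' S : List (α × Bool)) (M : ℕ)
    (h0 : (cut (P ++ (e ++ S))).1 = [])
    (hM : ∀ g ∈ (cut (P ++ (e ++ S))).2, g.2.length ≤ M) :
    ∃ Q D D' W, (cut (P ++ (e ++ S))).2 = Q ++ (D ++ W) ∧
      (cut (P ++ (e' ++ S))).2 = Q ++ (D' ++ W) ∧
      P.length ≤ (Q.map itm).flatten.length + (M + 1) ∧
      S.length ≤ (W.map itm).flatten.length + M := by
  obtain ⟨Q, hQ⟩ := cut_len P
  obtain ⟨T, h1, h2⟩ := hQ (e ++ S)
  obtain ⟨T', h1', -⟩ := hQ (e' ++ S)
  obtain ⟨Z, hZ, -⟩ := cut_suffix e S
  obtain ⟨Z', hZ', -⟩ := cut_suffix e' S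
  refine ⟨Q, T ++ Z, T' ++ Z', (cut S).2, by rw [h1, hZ]; simp, by rw [h1', hZ']; simp, ?_, ?_⟩
  · have := h2 M hM
    rw [h0] at this
    simpa using this
  · have h3 : (cut S).1.length ≤ M := by
      apply cut_suf_len (P ++ e) S M
      · rw [List.append_assoc, h0]; simp
      · rw [List.append_assoc]; exact hM
    have h4 := congrArg List.length (cut_content S)
    rw [List.length_append, List.length_map] at h4
    have h5 : ((cut S).2.map (fun g => g.1 :: g.2)).flatten.length
        = ((cut S).2.map itm).flatten.length := rfl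
    omega

lemma wt_prefix {l l' : List Item} (h : l <+: l') : wt l ≤ wt l' := by
  obtain ⟨t, rfl⟩ := h
  simp

lemma wt_suffix {l l' : List Item} (h : l <:+ l') : wt l ≤ wt l' := by
  obtain ⟨t, rfl⟩ := h
  simp

lemma wt_mid (A d B q D w : List Item) (s t c : ℕ) (h : A ++ (d ++ B) = q ++ (D ++ w))
    (hq : A.length ≤ q.length + s) (hw : B.length ≤ w.length + t)
    (hA : ∀ p ∈ A, p.1.length ≤ c) (hB : ∀ p ∈ B, p.1.length ≤ c) :
    wt D ≤ wt d + (s + t) * c := by
  have e1 : A.take (A.length - s) <+: q := by
    apply List.prefix_of_prefix_length_le (l₃ := A ++ (d ++ B))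
    · exact (List.take_prefix _ _).trans (List.prefix_append _ _)
    · rw [h]; exact List.prefix_append _ _
    · rw [List.length_take]; omega
  have e2 : B.drop t <:+ w := by
    apply List.suffix_of_suffix_length_le (l₃ := A ++ (d ++ B))
    · exact (List.drop_suffix _ _).trans ((List.suffix_append _ _).trans (List.suffix_append _ _))
    · rw [h]; exact (List.suffix_append _ _).trans (List.suffix_append _ _)
    · rw [List.length_drop]; omega
  have f1 := wt_prefix e1
  have f2 := wt_suffix e2
  have g1 : wt A = wt (A.take (A.length - s)) + wt (A.drop (A.length - s)) := by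
    rw [← wt_append, List.take_append_drop]
  have g2 : wt B = wt (B.take t) + wt (B.drop t) := by
    rw [← wt_append, List.take_append_drop]
  have i1 : wt (A.drop (A.length - s)) ≤ s * c := by
    refine (wt_le (b := c) _ fun p hp => hA p (List.mem_of_mem_drop hp)).trans ?_
    apply Nat.mul_le_mul_right
    rw [List.length_drop]; omega
  have i2 : wt (B.take t) ≤ t * c := by
    refine (wt_le (b := c) _ fun p hp => hB p (List.mem_of_mem_take hp)).trans ?_
    apply Nat.mul_le_mul_right
    rw [List.length_take]; omega
  have h5 := congrArg wt h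
  simp only [wt_append] at h5
  have : (s + t) * c = s * c + t * c := by ring
  omega

end Pool.Agent.EHW
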