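import Pool.Agent.EHW.Lv

/-!
# EHW (MP_7d1a15_lc): strings with different windows: edits, counting
-/

set_option autoImplicit false

namespace Pool.Agent.EHW

open Pool.Agent.EHD

lemma window_eq_iff (x : List Bool) (i j w : ℕ) :
    (x.drop i).take w = (x.drop j).take w ↔ ∀ k < w, x[i + k]? = x[j + k]? := by
  constructor
  · intro h k hk
    have h1 := congrArg (fun l : List Bool => l[k]?) h
    simp only [List.getElem?_take, List.getElem?_drop, hk, if_true] at h1
    exact h1
  · intro h
    apply List.ext_getElem?
    intro k
    rw [List.getElem?_take, List.getElem?_take]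
    split_ifs with hk
    · rw [List.getElem?_drop, List.getElem?_drop]
      exact h k hk
    · rfl

lemma Dist.mono {v w : ℕ} (h : v ≤ w) {x : List Bool} (hx : Dist v x) : Dist w x := by
  intro i j hij hj heq
  rw [window_eq_iff] at heq
  apply hx i j hij (by omega)
  rw [window_eq_iff]
  intro k hk
  exact heq k (by omega)

/-- an edit of a string with different windows of length `v` has different windows of length
`3 v + 2` -/
lemma Dist.edit {v : ℕ} (hv : 1 ≤ v) (u a b t : List Bool) (ha : a.length ≤ 1)
    (hb : b.length ≤ 1) (hx : Dist v (u ++ (a ++ t))) : Dist (3 * v + 2) (u ++ (b ++ t)) := by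
  intro i j hij hj heq
  rw [window_eq_iff] at heq
  set x := u ++ (a ++ t) with hxdef
  set y := u ++ (b ++ t) with hydef
  have hxl : x.length = u.length + (a.length + t.length) := by rw [hxdef]; simp
  have hyl : y.length = u.length + (b.length + t.length) := by rw [hydef]; simp
  -- the letters of `y` in terms of those of `x`
  have left : ∀ k, k < u.length → y[k]? = x[k]? := by
    intro k hk
    rw [hxdef, hydef, List.getElem?_append_left hk, List.getElem?_append_left hk]
  have right : ∀ k, u.length + b.length ≤ k → y[k]? = x[k - b.length + a.length]? := by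
    intro k hk
    rw [hxdef, hydef, List.getElem?_append_right (by omega), List.getElem?_append_right (by omega),
      List.getElem?_append_right (by omega), List.getElem?_append_right (by omega)]
    congr 1
    omega
  set p := u.length with hp
  by_cases c1 : j + v ≤ p
  · apply hx i j hij (by omega)
    rw [window_eq_iff]
    intro k hk
    rw [← left (i + k) (by omega), ← left (j + k) (by omega)]
    exact heq k (by omega)
  · by_cases c2 : p + b.length - i + v ≤ 3 * v + 2
    · set o := p + b.length - i with ho
      apply hx (i + o - b.length + a.length) (j + o - b.length + a.length) (by omega) (by omega)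
      rw [window_eq_iff]
      intro k hk
      have e1 := right (i + o + k) (by omega)
      have e2 := right (j + o + k) (by omega)
      have e3 := heq (o + k) (by omega)
      have f1 : i + o - b.length + a.length + k = i + o + k - b.length + a.length := by omega
      have f2 : j + o - b.length + a.length + k = j + o + k - b.length + a.length := by omega
      rw [f1, f2, ← e1, ← e2, add_assoc, add_assoc]
      exact e3
    · set o := p + b.length - j with ho
      apply hx (i + o) (j + o - b.length + a.length) (by omega) (by omega)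
      rw [window_eq_iff]
      intro k hk
      have e1 := left (i + o + k) (by omega)
      have e2 := right (j + o + k) (by omega)
      have e3 := heq (o + k) (by omega)
      have f2 : j + o - b.length + a.length + k = j + o + k - b.length + a.length := by omega
      rw [f2, ← e1, ← e2, add_assoc, add_assoc]
      exact e3

/-! ### counting -/

lemma finite_len (N : ℕ) : {x : List Bool | x.length = N}.Finite := List.finite_length_eq Bool N

lemma ncard_len (N : ℕ) : {x : List Bool | x.length = N}.ncard = 2 ^ N := by
  have h : {x : List Bool | x.length = N}.ncard = Nat.card (List.Vector Bool N) := rfl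
  rw [h, Nat.card_eq_fintype_card, card_vector]
  simp

lemma ncard_pair (N v i j : ℕ) (hij : i < j) (hj : j + v ≤ N) :
    {x : List Bool | x.length = N ∧ (x.drop i).take v = (x.drop j).take v}.ncard * 2 ^ v
      ≤ 2 ^ N := by
  set E := {x : List Bool | x.length = N ∧ (x.drop i).take v = (x.drop j).take v} with hE
  rw [← ncard_len v, ← ncard_len N, ← Set.ncard_prod]
  apply Set.ncard_le_ncard_of_injOn
    (fun p : List Bool × List Bool => p.1.take j ++ (p.2 ++ p.1.drop (j + v)))
    (ht := finite_len N)
  · rintro ⟨x, z⟩ ⟨hx, hz⟩
    have hx1 : x.length = N := hx.1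
    have hz1 : z.length = v := hz
    show (x.take j ++ (z ++ x.drop (j + v))).length = N
    simp only [List.length_append, List.length_take, List.length_drop]
    omega
  · rintro ⟨x, z⟩ ⟨hx, hz⟩ ⟨x', z'⟩ ⟨hx', hz'⟩ heq
    have hx1 : x.length = N := hx.1
    have hz1 : z.length = v := hz
    have hx1' : x'.length = N := hx'.1
    have hz1' : z'.length = v := hz'
    simp only at heq
    have h1 := List.append_inj heq (by simp [hx1, hx1'])
    have h2 := List.append_inj h1.2 (by rw [hz1, hz1'])
    have key : ∀ k : ℕ, x[k]? = x'[k]? := by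
      intro k
      induction k using Nat.strong_induction_on with
      | _ k ih =>
        by_cases c1 : k < j
        · have := congrArg (fun l : List Bool => l[k]?) h1.1
          simpa [List.getElem?_take, c1] using this
        · by_cases c2 : j + v ≤ k
          · have := congrArg (fun l : List Bool => l[k - (j + v)]?) h2.2
            simp only [List.getElem?_drop] at this
            have e : j + v + (k - (j + v)) = k := by omega
            rwa [e] at this
          · have e1 := (window_eq_iff x i j v).1 hx.2 (k - j) (by omega)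
            have e2 := (window_eq_iff x' i j v).1 hx'.2 (k - j) (by omega)
            have e3 : j + (k - j) = k := by omega
            rw [e3] at e1 e2
            rw [← e1, ← e2]
            exact ih _ (by omega)
    have hxx : x = x' := List.ext_getElem? key
    rw [hxx, h2.1]

lemma ncard_not_dist (N v : ℕ) :
    {x : List Bool | x.length = N ∧ ¬ Dist v x}.ncard * 2 ^ v ≤ N * N * 2 ^ N := by
  classical
  let I : Finset (ℕ × ℕ) := (Finset.range N ×ˢ Finset.range (N + 1)).filter
    (fun p => p.1 < p.2 ∧ p.2 + v ≤ N)
  have hI : I.card ≤ N * N := by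
    have h1 : I ⊆ Finset.range N ×ˢ (Finset.range (N + 1)).erase 0 := by
      intro p hp
      rw [Finset.mem_filter, Finset.mem_product] at hp
      rw [Finset.mem_product, Finset.mem_erase]
      exact ⟨hp.1.1, by omega, hp.1.2⟩
    refine (Finset.card_le_card h1).trans ?_
    rw [Finset.card_product, Finset.card_erase_of_mem (by simp)]
    simp
  let E : ℕ × ℕ → Set (List Bool) := fun p =>
    {x | x.length = N ∧ (x.drop p.1).take v = (x.drop p.2).take v}
  have hsub : {x : List Bool | x.length = N ∧ ¬ Dist v x} ⊆ ⋃ p ∈ I, E p := by
    rintro x ⟨hx, hd⟩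
    unfold Dist at hd
    push Not at hd
    obtain ⟨i, j, hij, hj, heq⟩ := hd
    rw [Set.mem_iUnion₂]
    refine ⟨(i, j), ?_, hx, heq⟩
    rw [Finset.mem_filter, Finset.mem_product, Finset.mem_range, Finset.mem_range]
    simp only
    omega
  have hfin : (⋃ p ∈ I, E p).Finite := by
    apply (finite_len N).subset
    intro x hx
    rw [Set.mem_iUnion₂] at hx
    obtain ⟨p, -, hx⟩ := hx
    exact hx.1
  have h2 : (⋃ p ∈ I, E p).ncard ≤ ∑ p ∈ I, (E p).ncard := by
    clear hI hsub hfin
    induction I using Finset.induction_on with
    | empty => simp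
    | insert p I hp ih =>
      rw [Finset.sum_insert hp, Finset.set_biUnion_insert]
      refine (Set.ncard_union_le _ _).trans ?_
      omega
  have h3 := (Set.ncard_le_ncard hsub hfin).trans h2
  calc {x : List Bool | x.length = N ∧ ¬ Dist v x}.ncard * 2 ^ v
      ≤ (∑ p ∈ I, (E p).ncard) * 2 ^ v := Nat.mul_le_mul_right _ h3
    _ = ∑ p ∈ I, (E p).ncard * 2 ^ v := Finset.sum_mul _ _ _
    _ ≤ ∑ p ∈ I, 2 ^ N := by
        apply Finset.sum_le_sum
        intro p hp
        rw [Finset.mem_filter] at hp
        exact ncard_pair N v p.1 p.2 hp.2.1 hp.2.2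
    _ = I.card * 2 ^ N := by rw [Finset.sum_const, smul_eq_mul]
    _ ≤ N * N * 2 ^ N := Nat.mul_le_mul_right _ hI

/-- the number of strings of length `N ≤ n` with two equal windows of length
`A ⌊log₂ n⌋` -/
lemma ncard_bad (n A N : ℕ) (hN : N ≤ n) :
    {x : List Bool | x.length = N ∧ ¬ Dist (A * Nat.log 2 n) x}.ncard * n ^ A
      ≤ 2 ^ A * n ^ 2 * 2 ^ N := by
  have h1 := ncard_not_dist N (A * Nat.log 2 n)
  set c := {x : List Bool | x.length = N ∧ ¬ Dist (A * Nat.log 2 n) x}.ncard
  have h2 : n < 2 ^ (Nat.log 2 n + 1) := Nat.lt_pow_succ_log_self (by norm_num) n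
  have h3 : n ^ A ≤ 2 ^ A * 2 ^ (A * Nat.log 2 n) := by
    calc n ^ A ≤ (2 ^ (Nat.log 2 n + 1)) ^ A := Nat.pow_le_pow_left h2.le A
      _ = 2 ^ A * 2 ^ (A * Nat.log 2 n) := by
        rw [← pow_mul, ← pow_add]; congr 1; ring
  calc c * n ^ A ≤ c * (2 ^ A * 2 ^ (A * Nat.log 2 n)) := Nat.mul_le_mul_left _ h3
    _ = 2 ^ A * (c * 2 ^ (A * Nat.log 2 n)) := by ring
    _ ≤ 2 ^ A * (N * N * 2 ^ N) := Nat.mul_le_mul_left _ h1
    _ ≤ 2 ^ A * (n * n * 2 ^ N) := by
        apply Nat.mul_le_mul_left
        exact Nat.mul_le_mul_right _ (Nat.mul_le_mul hN hN)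
    _ = 2 ^ A * n ^ 2 * 2 ^ N := by ring

end Pool.Agent.EHW
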