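import Pool.Agent.EHW.Fct
import Pool.Agent.EHW.Cnt

/-!
# EHW (MP_7d1a15_lc): the encoding
-/

set_option autoImplicit false

namespace Pool.Agent.EHW

open Pool.Agent.EHD

/-- a string of length at most `k` as a number below `2 ^ (k + 1)` -/
noncomputable def cd (k : ℕ) (s : Sym) : Fin (2 ^ (k + 1)) :=
  if h : code s < 2 ^ (k + 1) then ⟨code s, h⟩ else ⟨0, by positivity⟩

lemma cd_inj {k : ℕ} {s t : Sym} (hs : s.length ≤ k) (ht : t.length ≤ k)
    (h : cd k s = cd k t) : s = t := by
  have h1 : code s < 2 ^ (k + 1) :=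
    (code_lt s).trans_le (Nat.pow_le_pow_right (by norm_num) (by omega))
  have h2 : code t < 2 ^ (k + 1) :=
    (code_lt t).trans_le (Nat.pow_le_pow_right (by norm_num) (by omega))
  unfold cd at h
  rw [dif_pos h1, dif_pos h2, Fin.mk.injEq] at h
  exact code_inj h

/-- a fact as an index -/
noncomputable def ix (w c : ℕ) (z : Sym × Sym × Sym) :
    Fin (2 ^ (w + 1)) × Fin (2 ^ (c + 1)) × Fin (2 ^ (w + 1)) :=
  (cd w z.1, cd c z.2.1, cd w z.2.2)

/-- the last level of the parse -/
noncomputable def tp (n w J : ℕ) (x : List Bool) : List Item := lv (rd n) J (wn w x [])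

lemma tp_names_sub {n w J : ℕ} {x : List Bool} :
    ((tp n w J x).map Prod.snd).Sublist ((wn w x []).map Prod.snd) := lv_names _ _ _

lemma tp_name {n w J : ℕ} {x : List Bool} (hw : 1 ≤ w) {p : Item} (hp : p ∈ tp n w J x) :
    p.2 ≠ [] ∧ p.2.length ≤ w := by
  have h1 : p.2 ∈ (tp n w J x).map Prod.snd := List.mem_map_of_mem hp
  have h2 := tp_names_sub.subset h1
  rw [wn_names, List.mem_map] at h2
  obtain ⟨i, hi, hi2⟩ := h2
  rw [List.mem_range] at hi
  rw [List.append_nil] at hi2
  have h3 := congrArg List.length hi2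
  rw [List.length_take, List.length_drop] at h3
  constructor
  · intro hcon
    rw [hcon] at h3
    simp only [List.length_nil] at h3
    omega
  · omega

lemma tp_content (n w J : ℕ) (x : List Bool) : ((tp n w J x).map Prod.fst).flatten = x := by
  unfold tp
  rw [lv_content, wn_content]

lemma tp_head (n w J : ℕ) (x : List Bool) (hx : x ≠ []) :
    ((tp n w J x).map Prod.snd).head? = some (x.take w) := by
  unfold tp
  rw [lv_head]
  cases x with
  | nil => exact absurd rfl hx
  | cons b x => simp [wn]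

lemma tp_inv {n w J : ℕ} {x : List Bool} (h : Dist w x) : Inv (2 ^ J) (tp n w J x) :=
  inv_lv (inv_wn h) J

lemma tp_fact {n w J : ℕ} (hw : 1 ≤ w) (hJ : 2 ^ J ≤ 2 * w) {x : List Bool} (h : Dist w x)
    {z : Sym × Sym × Sym} (hz : z ∈ fct (tp n w J x)) :
    z.1.length ≤ w ∧ z.2.1.length ≤ 8 * w ∧ z.2.2.length ≤ w := by
  obtain ⟨p, hp, h1, h2, h3⟩ := mem_fct hz
  refine ⟨by rw [h1]; exact (tp_name hw hp).2, ?_, ?_⟩
  · rw [h2]
    have := (tp_inv h).ub p hp
    omega
  · rcases h3 with h3 | h3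
    · rw [h3]; simp
    · rw [List.mem_map] at h3
      obtain ⟨q, hq, hq2⟩ := h3
      rw [← hq2]
      exact (tp_name hw hq).2

/-- the coordinates -/
abbrev Ix (n w : ℕ) : Type :=
  Unit ⊕ (Fin (n + 1) ⊕ (Fin (2 ^ (w + 1)) ⊕
    (Fin (2 ^ (w + 1)) × Fin (2 ^ (8 * w + 1)) × Fin (2 ^ (w + 1)))))

open Classical in
/-- the encoding -/
noncomputable def enc (n w J : ℕ) (x : List Bool) : Ix n w → Bool :=
  if Dist w x then
    Sum.elim (fun _ => true) (Sum.elim (fun _ => false) (Sum.elim
      (fun i => decide (i = cd w (x.take w)))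
      (fun i => decide (i ∈ (fct (tp n w J x)).toFinset.image (ix w (8 * w))))))
  else
    Sum.elim (fun _ => false) (Sum.elim (fun i => (code x).testBit i) (Sum.elim
      (fun _ => false) (fun _ => false)))

lemma enc_pos {n w J : ℕ} {x : List Bool} (h : Dist w x) : enc n w J x =
    Sum.elim (fun _ => true) (Sum.elim (fun _ => false) (Sum.elim
      (fun i => decide (i = cd w (x.take w)))
      (fun i => decide (i ∈ (fct (tp n w J x)).toFinset.image (ix w (8 * w)))))) := by
  unfold enc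
  rw [if_pos h]

lemma enc_neg {n w J : ℕ} {x : List Bool} (h : ¬ Dist w x) : enc n w J x =
    Sum.elim (fun _ => false) (Sum.elim (fun i : Fin (n + 1) => (code x).testBit i) (Sum.elim
      (fun _ => false) (fun _ => false))) := by
  unfold enc
  rw [if_neg h]

lemma enc_inj {n w J : ℕ} (hw : 1 ≤ w) (hJ : 2 ^ J ≤ 2 * w) {x y : List Bool}
    (hx : x ≠ []) (hy : y ≠ []) (hxn : x.length ≤ n) (hyn : y.length ≤ n)
    (h : enc n w J x = enc n w J y) : x = y := by
  classical
  by_cases dx : Dist w x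
  · by_cases dy : Dist w y
    · rw [enc_pos dx, enc_pos dy] at h
      have h1 := congrFun h (Sum.inr (Sum.inr (Sum.inl (cd w (x.take w)))))
      simp only [Sum.elim_inr, Sum.elim_inl, decide_true] at h1
      have h2 : cd w (x.take w) = cd w (y.take w) := by
        simpa using h1.symm
      have h3 : x.take w = y.take w :=
        cd_inj (List.length_take_le _ _) (List.length_take_le _ _) h2
      have h4 : ∀ z, z ∈ fct (tp n w J x) → z ∈ fct (tp n w J y) := by
        intro z hz
        have h5 := congrFun h (Sum.inr (Sum.inr (Sum.inr (ix w (8 * w) z))))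
        simp only [Sum.elim_inr] at h5
        have h6 : ix w (8 * w) z ∈ (fct (tp n w J x)).toFinset.image (ix w (8 * w)) :=
          Finset.mem_image_of_mem _ (List.mem_toFinset.2 hz)
        have h7 : ix w (8 * w) z ∈ (fct (tp n w J y)).toFinset.image (ix w (8 * w)) := by
          rw [decide_eq_decide] at h5
          exact h5.1 h6
        obtain ⟨z', hz', he⟩ := Finset.mem_image.1 h7
        rw [List.mem_toFinset] at hz'
        have b := tp_fact hw hJ dx hz
        have b' := tp_fact hw hJ dy hz'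
        simp only [ix, Prod.mk.injEq] at he
        have : z' = z := by
          apply Prod.ext (cd_inj b'.1 b.1 he.1)
          apply Prod.ext (cd_inj b'.2.1 b.2.1 he.2.1)
          exact cd_inj b'.2.2 b.2.2 he.2.2
        rwa [this] at hz'
      have h4' : ∀ z, z ∈ fct (tp n w J y) → z ∈ fct (tp n w J x) := by
        intro z hz
        have h5 := congrFun h (Sum.inr (Sum.inr (Sum.inr (ix w (8 * w) z))))
        simp only [Sum.elim_inr] at h5
        have h6 : ix w (8 * w) z ∈ (fct (tp n w J y)).toFinset.image (ix w (8 * w)) :=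
          Finset.mem_image_of_mem _ (List.mem_toFinset.2 hz)
        have h7 : ix w (8 * w) z ∈ (fct (tp n w J x)).toFinset.image (ix w (8 * w)) := by
          rw [decide_eq_decide] at h5
          exact h5.2 h6
        obtain ⟨z', hz', he⟩ := Finset.mem_image.1 h7
        rw [List.mem_toFinset] at hz'
        have b := tp_fact hw hJ dy hz
        have b' := tp_fact hw hJ dx hz'
        simp only [ix, Prod.mk.injEq] at he
        have : z' = z := by
          apply Prod.ext (cd_inj b'.1 b.1 he.1)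
          apply Prod.ext (cd_inj b'.2.1 b.2.1 he.2.1)
          exact cd_inj b'.2.2 b.2.2 he.2.2
        rwa [this] at hz'
      have h8 : tp n w J x = tp n w J y := by
        apply fct_inj _ _ (tp_inv dx).nd (tp_inv dy).nd (fun p hp => (tp_name hw hp).1)
          (fun p hp => (tp_name hw hp).1)
        · rw [tp_head _ _ _ _ hx, tp_head _ _ _ _ hy, h3]
        · exact fun z => ⟨h4 z, h4' z⟩
      rw [← tp_content n w J x, ← tp_content n w J y, h8]
    · rw [enc_pos dx, enc_neg dy] at h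
      have := congrFun h (Sum.inl ())
      simp at this
  · by_cases dy : Dist w y
    · rw [enc_neg dx, enc_pos dy] at h
      have := congrFun h (Sum.inl ())
      simp at this
    · rw [enc_neg dx, enc_neg dy] at h
      apply code_inj
      apply Nat.eq_of_testBit_eq
      intro i
      by_cases hi : i < n + 1
      · have := congrFun h (Sum.inr (Sum.inl ⟨i, hi⟩))
        simpa using this
      · rw [Nat.testBit_lt_two_pow ((code_lt x).trans_le
          (Nat.pow_le_pow_right (by norm_num) (by omega))),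
          Nat.testBit_lt_two_pow ((code_lt y).trans_le
          (Nat.pow_le_pow_right (by norm_num) (by omega)))]

lemma len_of_wt {a Z : ℕ} (ha : 1 ≤ a) {A d B : List Item} (h : Inv a (A ++ (d ++ B)))
    (hd : wt d ≤ Z) : d.length ≤ Z / a + 1 := by
  cases d with
  | nil => simp
  | cons p d =>
    have h1 : ∀ q ∈ d, a ≤ q.1.length := by
      intro q hq
      apply h.lb
      cases A with
      | nil => simp [hq]
      | cons b A => simp [hq]
    have h2 := le_wt d h1
    rw [wt_cons] at hd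
    have h3 : d.length ≤ Z / a := by
      rw [Nat.le_div_iff_mul_le (by omega)]
      omega
    simp only [List.length_cons]
    omega

lemma enc_near {n w J : ℕ} (hJ : w ≤ 2 ^ J) {x y : List Bool}
    (dx : Dist w x) (dy : Dist w y) (hxn : x.length ≤ n) (hyn : y.length ≤ n)
    (h : NearW (w + 1) (wn w x []) (wn w y [])) :
    hammingDist (enc n w J x) (enc n w J y) ≤ 8 * rd n + 192 := by
  classical
  have hn : ∀ u ∈ wn w x [], u.2.length ≤ n := by
    intro u hu
    have := (wn_name_le hu).2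
    rw [List.append_nil] at this
    omega
  have hn' : ∀ u ∈ wn w y [], u.2.length ≤ n := by
    intro u hu
    have := (wn_name_le hu).2
    rw [List.append_nil] at this
    omega
  obtain ⟨A, d, d', B, h1, h2, h3, h4⟩ := near_lv (inv_wn dx) (inv_wn dy) hn hn' h J
  have hZ : (w + 1 + (rd n + 23) * 4 * (2 ^ J - 1)) / 2 ^ J ≤ 4 * rd n + 93 := by
    have hJ1 : 1 ≤ 2 ^ J := Nat.one_le_two_pow
    rw [Nat.div_le_iff_le_mul_add_pred (by omega)]
    obtain ⟨k, hk⟩ : ∃ k, 2 ^ J = k + 1 := ⟨2 ^ J - 1, by omega⟩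
    rw [hk] at hJ ⊢
    simp only [Nat.add_sub_cancel]
    nlinarith
  have i1 := tp_inv (n := n) (J := J) dx
  have i2 := tp_inv (n := n) (J := J) dy
  have e1 : tp n w J x = A ++ (d ++ B) := h1
  have e2 : tp n w J y = A ++ (d' ++ B) := h2
  have l1 := len_of_wt Nat.one_le_two_pow (e1 ▸ i1) h3
  have l2 := len_of_wt Nat.one_le_two_pow (e2 ▸ i2) h4
  have f1 := fct_near A d d' B
  have f2 := fct_near A d' d B
  rw [← e1, ← e2] at f1 f2
  rw [enc_pos dx, enc_pos dy, hamming_sum, hamming_sum, hamming_sum]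
  have g1 : hammingDist (fun _ : Unit => true) (fun _ => true) = 0 := hammingDist_self _
  have g2 : hammingDist (fun _ : Fin (n + 1) => false) (fun _ => false) = 0 := hammingDist_self _
  have g3 := hamming_one (cd w (x.take w)) (cd w (y.take w))
  have g4 := hamming_img (ix w (8 * w)) (fct (tp n w J x)).toFinset (fct (tp n w J y)).toFinset
    (4 * rd n + 95) (by omega) (by omega)
  rw [g1, g2]
  omega

lemma pow_aux (n A v k : ℕ) (hn : 2 ≤ n) (hv : 2 ^ v ≤ n ^ A) :
    2 ^ (30 * v + k) ≤ n ^ (30 * A + k) := by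
  rw [pow_add, pow_add]
  refine Nat.mul_le_mul ?_ (Nat.pow_le_pow_left hn k)
  calc 2 ^ (30 * v) = (2 ^ v) ^ 30 := by rw [← pow_mul]; congr 1; ring
    _ ≤ (n ^ A) ^ 30 := Nat.pow_le_pow_left hv 30
    _ = n ^ (30 * A) := by rw [← pow_mul]; congr 1; ring

lemma dim_aux (n a b : ℕ) (hn : 2 ≤ n) (hb : 2 ≤ b) (h : a ≤ n ^ b) :
    n + 2 + a ≤ n ^ (b + 1) := by
  have h1 : n ^ 2 ≤ n ^ b := Nat.pow_le_pow_right (by omega) hb
  have h2 : n ^ (b + 1) = n * n ^ b := by rw [← pow_succ']
  have h3 : 2 * n ^ b ≤ n * n ^ b := Nat.mul_le_mul_right _ hn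
  have h4 : n + 2 ≤ n ^ 2 := by nlinarith
  omega

lemma card_Ix (n w : ℕ) : Fintype.card (Ix n w) ≤ n + 2 + 2 ^ (10 * w + 4) := by
  have hc : Fintype.card (Ix n w) = 1 + (n + 1 + (2 ^ (w + 1) +
      2 ^ (w + 1) * (2 ^ (8 * w + 1) * 2 ^ (w + 1)))) := by
    simp
  rw [hc]
  have e1 : 2 ^ (w + 1) * (2 ^ (8 * w + 1) * 2 ^ (w + 1)) = 2 ^ (10 * w + 3) := by
    rw [← pow_add, ← pow_add]; congr 1; ring
  have e2 : 2 ^ (w + 1) ≤ 2 ^ (10 * w + 3) := Nat.pow_le_pow_right (by norm_num) (by omega)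
  have e3 : 2 ^ (10 * w + 4) = 2 * 2 ^ (10 * w + 3) := by rw [← pow_succ']
  rw [e1, e3]
  omega

theorem exists_enc (n A : ℕ) (hn : 2 ≤ n) (hA : 1 ≤ A) :
    ∃ m ≤ n ^ (30 * A + 25), ∃ f : List Bool → (Fin m → Bool),
      (∀ x y : List Bool, x ≠ [] → x.length ≤ n → y ≠ [] → y.length ≤ n → f x = f y → x = y) ∧
      (∀ u a b t : List Bool, a.length ≤ 1 → b.length ≤ 1 → (u ++ (a ++ t)).length ≤ n →
        (u ++ (b ++ t)).length ≤ n → Dist (A * Nat.log 2 n) (u ++ (a ++ t)) →
        hammingDist (f (u ++ (a ++ t))) (f (u ++ (b ++ t))) ≤ 224 * logStar n) := by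
  classical
  have hlog : 1 ≤ Nat.log 2 n := Nat.log_pos (by norm_num) hn
  obtain ⟨v, hv⟩ : ∃ v, v = A * Nat.log 2 n := ⟨_, rfl⟩
  have hv1 : 1 ≤ v := by rw [hv]; exact Nat.mul_pos hA hlog
  have hvp : 2 ^ v ≤ n ^ A := by
    have h3 : 2 ^ Nat.log 2 n ≤ n := Nat.pow_log_le_self 2 (by omega)
    calc 2 ^ v = (2 ^ Nat.log 2 n) ^ A := by
          rw [← pow_mul, hv]; congr 1; ring
      _ ≤ n ^ A := Nat.pow_le_pow_left h3 _
  obtain ⟨w, hw⟩ : ∃ w, w = 3 * v + 2 := ⟨_, rfl⟩
  have hw1 : 1 ≤ w := by omega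
  obtain ⟨J, hJ1, hJ2⟩ : ∃ J, w ≤ 2 ^ J ∧ 2 ^ J ≤ 2 * w := by
    refine ⟨Nat.clog 2 w, Nat.le_pow_clog (by norm_num) w, ?_⟩
    have h1 : 2 ^ (Nat.clog 2 w).pred < w := Nat.pow_pred_clog_lt_self (by norm_num) (by omega)
    have h2 : 1 ≤ Nat.clog 2 w := Nat.clog_pos (by norm_num) (by omega)
    have h3 : 2 ^ Nat.clog 2 w = 2 * 2 ^ (Nat.clog 2 w).pred := by
      rw [← pow_succ']
      congr 1
      exact (Nat.succ_pred_eq_of_pos h2).symm
    rw [h3]
    omega
  let e : Fin (Fintype.card (Ix n w)) ≃ Ix n w := (Fintype.equivFin (Ix n w)).symm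
  refine ⟨Fintype.card (Ix n w), ?_, fun x i => enc n w J x (e i), ?_, ?_⟩
  · refine (card_Ix n w).trans ?_
    have h1 : 10 * w + 4 = 30 * v + 24 := by omega
    rw [h1]
    have h2 : 30 * A + 25 = (30 * A + 24) + 1 := rfl
    rw [h2]
    exact dim_aux n _ _ hn (by omega) (pow_aux n A v 24 hn hvp)
  · intro x y hx hxn hy hyn hf
    apply enc_inj hw1 hJ2 hx hy hxn hyn (J := J)
    funext i
    have := congrFun hf (e.symm i)
    simpa using this
  · intro u a b t ha hb hl hl' hd
    rw [← hv] at hd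
    have h0 := hamming_equiv e (enc n w J (u ++ (a ++ t))) (enc n w J (u ++ (b ++ t)))
    have d1 : Dist w (u ++ (a ++ t)) := hd.mono (by omega)
    have d2 : Dist w (u ++ (b ++ t)) := by
      rw [hw]; exact hd.edit hv1 u a b t ha hb
    have h1 := enc_near hJ1 d1 d2 hl hl' (near_wn w u a b t ha hb)
    have h2 := one_le_logStar hn
    unfold rd at h1
    show hammingDist (fun i => enc n w J (u ++ (a ++ t)) (e i))
      (fun i => enc n w J (u ++ (b ++ t)) (e i)) ≤ _
    rw [h0]
    omega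

end Pool.Agent.EHW
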