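import Pool.Agent.EHW.Lv

/-!
# EHW (MP_7d1a15_lc): the recorded facts
-/

set_option autoImplicit false

namespace Pool.Agent.EHW

open Pool.Agent.EHD

/-- facts: name, content, name of the next item -/
def fct : List Item → List (Sym × Sym × Sym)
  | [] => []
  | p :: r => (p.2, p.1, (r.map Prod.snd).headD []) :: fct r

@[simp] lemma length_fct (l : List Item) : (fct l).length = l.length := by
  induction l with
  | nil => rfl
  | cons p r ih => simp [fct, ih]

lemma fct_take (l l' : List Item) (p : ℕ) (h : l.take p = l'.take p) :
    (fct l).take (p - 1) = (fct l').take (p - 1) := by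
  induction l generalizing l' p with
  | nil =>
    cases p with
    | zero => simp
    | succ p =>
      cases l' with
      | nil => rfl
      | cons a l' => simp at h
  | cons a l ih =>
    cases p with
    | zero => simp
    | succ p =>
      cases l' with
      | nil => simp at h
      | cons a' l' =>
        simp only [List.take_succ_cons, List.cons.injEq] at h
        obtain ⟨rfl, h⟩ := h
        simp only [Nat.add_sub_cancel]
        cases p with
        | zero => simp
        | succ p =>
          have h2 := ih l' (p + 1) h
          simp only [Nat.add_sub_cancel] at h2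
          simp only [fct, List.take_succ_cons]
          rw [h2]
          congr 3
          cases l with
          | nil =>
            cases l' with
            | nil => rfl
            | cons b l' => simp at h
          | cons b l =>
            cases l' with
            | nil => simp at h
            | cons b' l' =>
              simp only [List.take_succ_cons, List.cons.injEq] at h
              obtain ⟨rfl, -⟩ := h
              rfl

lemma fct_append (X Y : List Item) : ∃ T, fct (X ++ Y) = T ++ fct Y ∧ T.length = X.length := by
  induction X with
  | nil => exact ⟨[], rfl, rfl⟩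
  | cons a X ih =>
    obtain ⟨T, hT, hl⟩ := ih
    exact ⟨_ :: T, by rw [List.cons_append, fct, hT]; rfl, by simp [hl]⟩

lemma mem_fct {l : List Item} {z : Sym × Sym × Sym} (hz : z ∈ fct l) :
    ∃ p ∈ l, z.1 = p.2 ∧ z.2.1 = p.1 ∧ (z.2.2 = [] ∨ z.2.2 ∈ l.map Prod.snd) := by
  induction l with
  | nil => simp [fct] at hz
  | cons p r ih =>
    simp only [fct, List.mem_cons] at hz
    rcases hz with hz | hz
    · subst hz
      refine ⟨p, by simp, rfl, rfl, ?_⟩
      cases r with
      | nil => left; rfl
      | cons q r => right; simp
    · obtain ⟨q, h1, h2, h3, h4⟩ := ih hz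
      refine ⟨q, by simp [h1], h2, h3, ?_⟩
      rcases h4 with h4 | h4
      · exact Or.inl h4
      · exact Or.inr (by rw [List.map_cons]; exact List.mem_cons_of_mem _ h4)

/-- the number of changed facts -/
lemma fct_near (A d d' B : List Item) :
    ((fct (A ++ (d ++ B))).toFinset \ (fct (A ++ (d' ++ B))).toFinset).card ≤ d.length + 1 := by
  set u := fct (A ++ (d ++ B)) with hu
  set u' := fct (A ++ (d' ++ B)) with hu'
  have hlu : u.length = A.length + (d.length + B.length) := by simp [hu]
  have hlu' : u'.length = A.length + (d'.length + B.length) := by simp [hu']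
  have hp : u.take (A.length - 1) = u'.take (A.length - 1) := by
    apply fct_take; simp
  have hs : u.drop (u.length - B.length) = u'.drop (u'.length - B.length) := by
    obtain ⟨T, hT, hl⟩ := fct_append (A ++ d) B
    obtain ⟨T', hT', hl'⟩ := fct_append (A ++ d') B
    rw [List.append_assoc] at hT hT'
    rw [← hu] at hT
    rw [← hu'] at hT'
    have l1 : u.length - B.length = T.length := by rw [hlu, hl]; simp; omega
    have l2 : u'.length - B.length = T'.length := by rw [hlu', hl']; simp; omega
    rw [l1, l2, hT, hT', List.drop_left, List.drop_left]
  obtain ⟨e, e', h3, h4, h5, h6⟩ := split_common u u' (A.length - 1) B.length hp hs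
    (by omega) (by omega)
  have h7 : u.toFinset \ u'.toFinset ⊆ e.toFinset := by
    intro v hv
    rw [Finset.mem_sdiff, List.mem_toFinset, List.mem_toFinset, h3, h4] at hv
    rw [List.mem_toFinset]
    obtain ⟨a1, a2⟩ := hv
    simp only [List.mem_append, not_or] at a1 a2
    tauto
  refine (Finset.card_le_card h7).trans ((List.toFinset_card_le e).trans ?_)
  omega

/-- the facts and the first name determine the list -/
lemma fct_inj (l : List Item) : ∀ l' : List Item, (l.map Prod.snd).Nodup →
    (l'.map Prod.snd).Nodup → (∀ p ∈ l, p.2 ≠ []) → (∀ p ∈ l', p.2 ≠ []) →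
    (l.map Prod.snd).head? = (l'.map Prod.snd).head? → (∀ z, z ∈ fct l ↔ z ∈ fct l') → l = l' := by
  induction l with
  | nil =>
    intro l' _ _ _ _ hh _
    cases l' with
    | nil => rfl
    | cons p' r' => simp at hh
  | cons p r ih =>
    intro l' hn hn' he he' hh hz
    cases l' with
    | nil => simp at hh
    | cons p' r' =>
      have hpp : p.2 = p'.2 := by simpa using hh
      rw [List.map_cons, List.nodup_cons] at hn hn'
      have notin : ∀ (q : Item) (s : List Item), q.2 ∉ s.map Prod.snd → ∀ z ∈ fct s, z.1 ≠ q.2 := by
        intro q s hq z hzs hcon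
        obtain ⟨v, hv, h1, -, -⟩ := mem_fct hzs
        apply hq
        rw [← hcon, h1]
        exact List.mem_map_of_mem hv
      have h1 := (hz (p.2, p.1, (r.map Prod.snd).headD [])).1 (by simp [fct])
      simp only [fct, List.mem_cons] at h1
      have h2 : (p.2, p.1, (r.map Prod.snd).headD []) = (p'.2, p'.1, (r'.map Prod.snd).headD []) := by
        rcases h1 with h1 | h1
        · exact h1
        · exact absurd hpp (notin p' r' hn'.1 _ h1)
      simp only [Prod.mk.injEq] at h2
      obtain ⟨h3, h4, h5⟩ := h2
      have hpe : p = p' := Prod.ext h4 h3
      subst hpe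
      congr 1
      apply ih r' hn.2 hn'.2 (fun q hq => he q (by simp [hq])) (fun q hq => he' q (by simp [hq]))
      · cases r with
        | nil =>
          cases r' with
          | nil => rfl
          | cons q' r' =>
            simp at h5
            exact absurd h5 (he' q' (by simp))
        | cons q r =>
          cases r' with
          | nil =>
            simp at h5
            exact absurd h5 (he q (by simp))
          | cons q' r' =>
            simp at h5
            simp [h5]
      · intro z
        constructor
        · intro hzr
          have h6 := (hz z).1 (by simp [fct, hzr])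
          simp only [fct, List.mem_cons] at h6
          rcases h6 with h6 | h6
          · exact absurd (by rw [h6]) (notin p r hn.1 z hzr)
          · exact h6
        · intro hzr
          have h6 := (hz z).2 (by simp [fct, hzr])
          simp only [fct, List.mem_cons] at h6
          rcases h6 with h6 | h6
          · exact absurd (by rw [h6]) (notin p r' hn'.1 z hzr)
          · exact h6

/-! ### Hamming distances -/

lemma hamming_sum {ι κ : Type} [Fintype ι] [Fintype κ] (a a' : ι → Bool) (b b' : κ → Bool) :
    hammingDist (Sum.elim a b) (Sum.elim a' b') = hammingDist a a' + hammingDist b b' := by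
  unfold hammingDist
  rw [Finset.card_filter, Finset.card_filter, Finset.card_filter, Fintype.sum_sum_type]
  rfl

lemma hamming_equiv {ι κ : Type} [Fintype ι] [Fintype κ] (e : ι ≃ κ) (f g : κ → Bool) :
    hammingDist (fun i => f (e i)) (fun i => g (e i)) = hammingDist f g := by
  unfold hammingDist
  rw [Finset.card_filter, Finset.card_filter]
  exact Equiv.sum_comp e (fun i => if f i ≠ g i then 1 else 0)

lemma hamming_img {α β : Type} [DecidableEq α] [Fintype β] [DecidableEq β] (h : α → β)
    (A A' : Finset α) (k : ℕ) (h1 : (A \ A').card ≤ k) (h2 : (A' \ A).card ≤ k) :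
    hammingDist (fun i : β => decide (i ∈ A.image h)) (fun i => decide (i ∈ A'.image h))
      ≤ 2 * k := by
  unfold hammingDist
  have h3 : (Finset.univ.filter (fun i : β => decide (i ∈ A.image h) ≠
      decide (i ∈ A'.image h))) ⊆ (A \ A').image h ∪ (A' \ A).image h := by
    intro i hi
    rw [Finset.mem_filter] at hi
    have hi2 := hi.2
    rw [Finset.mem_union]
    by_cases e1 : i ∈ A.image h
    · by_cases e2 : i ∈ A'.image h
      · simp [e1, e2] at hi2
      · left
        obtain ⟨v, hv, rfl⟩ := Finset.mem_image.1 e1
        apply Finset.mem_image_of_mem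
        rw [Finset.mem_sdiff]
        exact ⟨hv, fun hcon => e2 (Finset.mem_image_of_mem _ hcon)⟩
    · by_cases e2 : i ∈ A'.image h
      · right
        obtain ⟨v, hv, rfl⟩ := Finset.mem_image.1 e2
        apply Finset.mem_image_of_mem
        rw [Finset.mem_sdiff]
        exact ⟨hv, fun hcon => e1 (Finset.mem_image_of_mem _ hcon)⟩
      · simp [e1, e2] at hi2
  refine (Finset.card_le_card h3).trans ((Finset.card_union_le _ _).trans ?_)
  have h4 : ((A \ A').image h).card ≤ k := Finset.card_image_le.trans h1
  have h5 : ((A' \ A).image h).card ≤ k := Finset.card_image_le.trans h2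
  omega

lemma hamming_one {β : Type} [Fintype β] [DecidableEq β] (c c' : β) :
    hammingDist (fun i : β => decide (i = c)) (fun i => decide (i = c')) ≤ 2 := by
  unfold hammingDist
  have h3 : (Finset.univ.filter (fun i : β => decide (i = c) ≠ decide (i = c'))) ⊆
      {c, c'} := by
    intro i hi
    rw [Finset.mem_filter] at hi
    have hi2 := hi.2
    rw [Finset.mem_insert, Finset.mem_singleton]
    by_contra hcon
    rw [not_or] at hcon
    simp [hcon.1, hcon.2] at hi2
  exact (Finset.card_le_card h3).trans Finset.card_le_two

end Pool.Agent.EHW
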