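import Pool.Agent.EHD.Levels

/-!
# EHW (MP_7d1a15_lc): items, weights, grouping of the items of a block by length
-/

set_option autoImplicit false

namespace Pool.Agent.EHW

open Pool.Agent.EHD

/-- an item: its content and its name -/
abbrev Item := Sym × Sym

/-- total length of the contents -/
def wt (l : List Item) : ℕ := (l.map (fun p => p.1.length)).sum

@[simp] lemma wt_nil : wt [] = 0 := rfl

@[simp] lemma wt_cons (p : Item) (l : List Item) : wt (p :: l) = p.1.length + wt l := by
  simp [wt]

@[simp] lemma wt_append (l l' : List Item) : wt (l ++ l') = wt l + wt l' := by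
  simp [wt]

lemma wt_flatten (L : List (List Item)) : wt L.flatten = (L.map wt).sum := by
  induction L with
  | nil => rfl
  | cons g L ih => simp [ih]

lemma wt_le {b : ℕ} (l : List Item) (h : ∀ p ∈ l, p.1.length ≤ b) : wt l ≤ l.length * b := by
  induction l with
  | nil => simp
  | cons p l ih =>
    have h1 := h p (by simp)
    have h2 := ih (fun q hq => h q (by simp [hq]))
    rw [wt_cons, List.length_cons]
    have : (l.length + 1) * b = l.length * b + b := by ring
    omega

lemma le_wt {b : ℕ} (l : List Item) (h : ∀ p ∈ l, b ≤ p.1.length) : l.length * b ≤ wt l := by
  induction l with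
  | nil => simp
  | cons p l ih =>
    have h1 := h p (by simp)
    have h2 := ih (fun q hq => h q (by simp [hq]))
    rw [wt_cons, List.length_cons]
    have : (l.length + 1) * b = l.length * b + b := by ring
    omega

/-- group from the right: a group is closed as soon as its weight is at least `b` -/
def grp (b : ℕ) : List Item → List (List Item)
  | [] => []
  | p :: l => match grp b l with
    | [] => [[p]]
    | h :: t => if wt h < b then (p :: h) :: t else [p] :: h :: t

/-- join the first group to the second one if it is too light -/
def fixg (b : ℕ) : List (List Item) → List (List Item)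
  | h1 :: h2 :: t => if wt h1 < b then (h1 ++ h2) :: t else h1 :: h2 :: t
  | l => l

/-- the groups -/
def groups (b : ℕ) (l : List Item) : List (List Item) := fixg b (grp b l)

lemma grp_flatten (b : ℕ) (l : List Item) : (grp b l).flatten = l := by
  induction l with
  | nil => rfl
  | cons p l ih =>
    rw [grp]
    cases h : grp b l with
    | nil =>
      rw [h] at ih
      simp only [List.flatten_nil] at ih
      subst ih
      rfl
    | cons g t =>
      rw [h] at ih
      simp only
      split_ifs
      · simpa using ih
      · simpa using ih

lemma grp_ne_nil (b : ℕ) (p : Item) (l : List Item) : grp b (p :: l) ≠ [] := by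
  rw [grp]
  cases grp b l with
  | nil => simp
  | cons g t => simp only; split_ifs <;> simp

lemma grp_ne (b : ℕ) (l : List Item) : ∀ g ∈ grp b l, g ≠ [] := by
  induction l with
  | nil => simp [grp]
  | cons p l ih =>
    rw [grp]
    cases h : grp b l with
    | nil => simp
    | cons g t =>
      rw [h] at ih
      simp only
      split_ifs
      · intro x hx
        rcases List.mem_cons.1 hx with hx | hx
        · subst hx; simp
        · exact ih x (by simp [hx])
      · intro x hx
        rcases List.mem_cons.1 hx with hx | hx
        · subst hx; simp
        · exact ih x hx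

/-- weights of the groups: at most `b + c`, at least `b` except for the first one -/
lemma grp_wt (b c : ℕ) (l : List Item) (hc : ∀ p ∈ l, p.1.length ≤ c) :
    (∀ g ∈ grp b l, wt g ≤ b + c) ∧ (∀ g ∈ (grp b l).tail, b ≤ wt g) := by
  induction l with
  | nil => simp [grp]
  | cons p l ih =>
    obtain ⟨h1, h2⟩ := ih (fun q hq => hc q (by simp [hq]))
    have hp := hc p (by simp)
    rw [grp]
    cases h : grp b l with
    | nil => simp; omega
    | cons g t =>
      rw [h] at h1 h2
      simp only [List.tail_cons] at h2
      simp only
      split_ifs with hg
      · refine ⟨?_, by simpa using h2⟩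
        intro x hx
        rcases List.mem_cons.1 hx with hx | hx
        · subst hx; rw [wt_cons]; omega
        · exact h1 x (by simp [hx])
      · refine ⟨?_, ?_⟩
        · intro x hx
          rcases List.mem_cons.1 hx with hx | hx
          · subst hx; simp; omega
          · exact h1 x hx
        · intro x hx
          simp only [List.tail_cons] at hx
          rcases List.mem_cons.1 hx with hx | hx
          · subst hx; omega
          · exact h2 x hx

lemma fixg_flatten (b : ℕ) (L : List (List Item)) : (fixg b L).flatten = L.flatten := by
  match L with
  | [] => simp [fixg]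
  | [g] => simp [fixg]
  | h1 :: h2 :: t =>
    rw [fixg]
    split_ifs <;> simp

lemma groups_flatten (b : ℕ) (l : List Item) : (groups b l).flatten = l := by
  unfold groups
  rw [fixg_flatten, grp_flatten]

lemma groups_ne (b : ℕ) (l : List Item) : ∀ g ∈ groups b l, g ≠ [] := by
  unfold groups
  have h := grp_ne b l
  generalize grp b l = L at h
  match L, h with
  | [], _ => simp [fixg]
  | [g], h => simpa [fixg] using h
  | h1 :: h2 :: t, h =>
    rw [fixg]
    split_ifs
    · intro g hg
      rcases List.mem_cons.1 hg with hg | hg
      · subst hg
        have := h h1 (by simp)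
        simp [this]
      · exact h g (by simp [hg])
    · exact h

/-- all groups have weight at most `2 b + c`, and at least `b` if the whole list has -/
lemma groups_wt (b c : ℕ) (l : List Item) (hc : ∀ p ∈ l, p.1.length ≤ c) :
    (∀ g ∈ groups b l, wt g ≤ 2 * b + c) ∧ (∀ g ∈ (groups b l).tail, b ≤ wt g) ∧
    (b ≤ wt l → ∀ g ∈ groups b l, b ≤ wt g) := by
  unfold groups
  obtain ⟨h1, h2⟩ := grp_wt b c l hc
  have h3 := grp_flatten b l
  generalize grp b l = L at h1 h2 h3
  match L, h1, h2, h3 with
  | [], _, _, _ => simp [fixg]
  | [g], h1, h2, h3 =>
    rw [fixg]
    · refine ⟨fun x hx => (h1 x hx).trans (by omega), by simp, ?_⟩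
      intro hb x hx
      rw [List.mem_singleton] at hx
      subst hx
      simp at h3
      rw [h3]
      exact hb
    · simp
  | g1 :: g2 :: t, h1, h2, h3 =>
    rw [fixg]
    have a1 := h1 g1 (by simp)
    have a2 := h1 g2 (by simp)
    have b2 := h2 g2 (by simp)
    split_ifs with hg
    · refine ⟨?_, ?_, ?_⟩
      · intro x hx
        rcases List.mem_cons.1 hx with hx | hx
        · subst hx; rw [wt_append]; omega
        · exact (h1 x (by simp [hx])).trans (by omega)
      · intro x hx
        exact h2 x (by simpa using Or.inr hx)
      · intro _ x hx
        rcases List.mem_cons.1 hx with hx | hx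
        · subst hx; rw [wt_append]; omega
        · exact h2 x (by simp [hx])
    · refine ⟨?_, ?_, ?_⟩
      · intro x hx
        exact (h1 x hx).trans (by omega)
      · intro x hx
        exact h2 x hx
      · intro _ x hx
        rcases List.mem_cons.1 hx with hx | hx
        · subst hx; omega
        · exact h2 x hx

/-- the item made of a group -/
def mrg (g : List Item) : Item := ((g.map Prod.fst).flatten, (g.map Prod.snd).headD [])

lemma length_mrg (g : List Item) : (mrg g).1.length = wt g := by
  unfold mrg wt
  simp [List.length_flatten, Function.comp_def]

lemma wt_mrg (L : List (List Item)) : wt (L.map mrg) = wt L.flatten := by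
  rw [wt_flatten]
  unfold wt
  rw [List.map_map]
  congr 1
  apply List.map_congr_left
  intro g _
  simp only [Function.comp]
  rw [length_mrg]
  rfl

lemma content_mrg (L : List (List Item)) :
    ((L.map mrg).map Prod.fst).flatten = (L.flatten.map Prod.fst).flatten := by
  induction L with
  | nil => rfl
  | cons g L ih =>
    simp only [List.map_cons, List.flatten_cons, List.map_append, List.flatten_append, ih]
    rfl

/-- the names of the new items are names of old items, in the same order -/
lemma names_mrg (L : List (List Item)) (h : ∀ g ∈ L, g ≠ []) :
    ((L.map mrg).map Prod.snd).Sublist (L.flatten.map Prod.snd) := by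
  induction L with
  | nil => simp
  | cons g L ih =>
    have ih' := ih (fun g' hg' => h g' (by simp [hg']))
    have hg := h g (by simp)
    cases g with
    | nil => exact absurd rfl hg
    | cons p g =>
      simp only [List.map_cons, List.flatten_cons, List.map_append, List.cons_append]
      have e : (mrg (p :: g)).2 = p.2 := rfl
      rw [e]
      exact (ih'.trans (List.sublist_append_right _ _)).cons_cons p.2

lemma head_mrg (L : List (List Item)) (h : ∀ g ∈ L, g ≠ []) :
    ((L.map mrg).map Prod.snd).head? = (L.flatten.map Prod.snd).head? := by
  cases L with
  | nil => rfl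
  | cons g L =>
    have hg := h g (by simp)
    cases g with
    | nil => exact absurd rfl hg
    | cons p g => rfl

end Pool.Agent.EHW
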