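import Pool.Agent.EHW.Stp

/-!
# EHW (MP_7d1a15_lc): windows as names, the levels
-/

set_option autoImplicit false

namespace Pool.Agent.EHW

open Pool.Agent.EHD

/-- the level `j` of the length controlled parse -/
noncomputable def lv (R : ℕ) : ℕ → List Item → List Item
  | 0, l => l
  | j + 1, l => stp R (2 * 2 ^ j) (lv R j l)

lemma inv_lv {R : ℕ} {l : List Item} (h : Inv 1 l) (j : ℕ) : Inv (2 ^ j) (lv R j l) := by
  induction j with
  | zero => exact h
  | succ j ih =>
    have := inv_stp (R := R) ih
    rw [lv, pow_succ, mul_comm (2 ^ j) 2]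
    exact this

lemma lv_names (R j : ℕ) (l : List Item) :
    ((lv R j l).map Prod.snd).Sublist (l.map Prod.snd) := by
  induction j with
  | zero => exact List.Sublist.refl _
  | succ j ih => exact (stp_names _ _ _).trans ih

lemma lv_content (R j : ℕ) (l : List Item) :
    ((lv R j l).map Prod.fst).flatten = (l.map Prod.fst).flatten := by
  induction j with
  | zero => rfl
  | succ j ih => rw [lv, stp_content, ih]

lemma lv_head (R j : ℕ) (l : List Item) :
    ((lv R j l).map Prod.snd).head? = (l.map Prod.snd).head? := by
  induction j with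
  | zero => rfl
  | succ j ih => rw [lv, stp_head, ih]

lemma lv_name_le {R j n : ℕ} {l : List Item} (h : ∀ u ∈ l, u.2.length ≤ n) :
    ∀ u ∈ lv R j l, u.2.length ≤ n := by
  intro u hu
  have h1 : u.2 ∈ (lv R j l).map Prod.snd := List.mem_map_of_mem hu
  have h2 := (lv_names R j l).subset h1
  rw [List.mem_map] at h2
  obtain ⟨v, hv, hvu⟩ := h2
  rw [← hvu]
  exact h v hv

lemma near_lv {n Z : ℕ} {l l' : List Item} (h : Inv 1 l) (h' : Inv 1 l')
    (hn : ∀ u ∈ l, u.2.length ≤ n) (hn' : ∀ u ∈ l', u.2.length ≤ n) (hZ : NearW Z l l') (j : ℕ) :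
    NearW (Z + (rd n + 23) * 4 * (2 ^ j - 1)) (lv (rd n) j l) (lv (rd n) j l') := by
  induction j with
  | zero => simpa [lv] using hZ
  | succ j ih =>
    have h1 := near_stp (inv_lv (R := rd n) h j) (inv_lv (R := rd n) h' j) (lv_name_le hn)
      (lv_name_le hn') ih
    rw [lv, lv]
    have e : Z + (rd n + 23) * 4 * (2 ^ j - 1) + (rd n + 23) * (4 * 2 ^ j)
        = Z + (rd n + 23) * 4 * (2 ^ (j + 1) - 1) := by
      have h2 : 2 ^ (j + 1) - 1 = (2 ^ j - 1) + 2 ^ j := by
        have : 1 ≤ 2 ^ j := Nat.one_le_two_pow
        rw [pow_succ]; omega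
      rw [h2]; ring
    rw [e] at h1
    exact h1

/-! ### windows -/

/-- the letters of `s`, each with the window of length `w` at its position in `s ++ t` -/
def wn (w : ℕ) : List Bool → List Bool → List Item
  | [], _ => []
  | b :: s, t => ([b], (b :: (s ++ t)).take w) :: wn w s t

lemma wn_append (w : ℕ) (s s' t : List Bool) :
    wn w (s ++ s') t = wn w s (s' ++ t) ++ wn w s' t := by
  induction s with
  | nil => rfl
  | cons b s ih => simp [wn, ih]

lemma take_append_congr (w : ℕ) (s t t' : List Bool) (h : t.take w = t'.take w) :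
    (s ++ t).take w = (s ++ t').take w := by
  rw [List.take_append, List.take_append]
  congr 1
  have h1 : t.take (w - s.length) = (t.take w).take (w - s.length) := by
    rw [List.take_take]; congr 1; omega
  have h2 : t'.take (w - s.length) = (t'.take w).take (w - s.length) := by
    rw [List.take_take]; congr 1; omega
  rw [h1, h2, h]

lemma wn_congr (w : ℕ) (s t t' : List Bool) (h : t.take w = t'.take w) :
    wn w s t = wn w s t' := by
  induction s with
  | nil => rfl
  | cons b s ih =>
    rw [wn, wn, ih]
    congr 2
    exact take_append_congr w (b :: s) t t' h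

lemma wt_wn (w : ℕ) (s t : List Bool) : wt (wn w s t) = s.length := by
  induction s with
  | nil => rfl
  | cons b s ih => simp [wn, ih]; omega

lemma wn_content (w : ℕ) (s t : List Bool) : ((wn w s t).map Prod.fst).flatten = s := by
  induction s with
  | nil => rfl
  | cons b s ih => simp [wn, ih]

lemma wn_names (w : ℕ) (s t : List Bool) :
    (wn w s t).map Prod.snd = (List.range s.length).map (fun i => ((s ++ t).drop i).take w) := by
  induction s with
  | nil => rfl
  | cons b s ih =>
    rw [List.length_cons, List.range_succ_eq_map]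
    simp only [wn, List.map_cons, List.map_map, ih]
    rfl

lemma wn_item {w : ℕ} {s t : List Bool} {p : Item} (hp : p ∈ wn w s t) :
    p.1.length = 1 := by
  induction s with
  | nil => simp [wn] at hp
  | cons b s ih =>
    simp only [wn, List.mem_cons] at hp
    rcases hp with hp | hp
    · rw [hp]; rfl
    · exact ih hp

lemma wn_name_le {w : ℕ} {s t : List Bool} {p : Item} (hp : p ∈ wn w s t) :
    p.2.length ≤ w ∧ p.2.length ≤ (s ++ t).length := by
  have h1 : p.2 ∈ (wn w s t).map Prod.snd := List.mem_map_of_mem hp
  rw [wn_names, List.mem_map] at h1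
  obtain ⟨i, -, hi⟩ := h1
  rw [← hi, List.length_take, List.length_drop]
  omega

/-- the substrings of length `w` at different places are different -/
def Dist (w : ℕ) (x : List Bool) : Prop :=
  ∀ i j, i < j → j + w ≤ x.length → (x.drop i).take w ≠ (x.drop j).take w

lemma inv_wn {w : ℕ} {x : List Bool} (h : Dist w x) : Inv 1 (wn w x []) := by
  refine ⟨fun p hp => by rw [wn_item hp]; norm_num, fun p hp => by
    rw [wn_item (List.mem_of_mem_tail hp)], ?_⟩
  rw [wn_names, List.append_nil]
  apply List.Nodup.map_on _ List.nodup_range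
  have key : ∀ i j, i < j → j < x.length → (x.drop i).take w ≠ (x.drop j).take w := by
    intro i j hij hj heq
    by_cases hjw : j + w ≤ x.length
    · exact h i j hij hjw heq
    · have := congrArg List.length heq
      simp only [List.length_take, List.length_drop] at this
      omega
  intro i hi j hj heq
  rw [List.mem_range] at hi hj
  by_contra hne
  rcases Nat.lt_or_gt_of_ne hne with hlt | hlt
  · exact key i j hlt hj heq
  · exact key j i hlt hi heq.symm

lemma near_wn (w : ℕ) (u a b v : List Bool) (ha : a.length ≤ 1) (hb : b.length ≤ 1) :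
    NearW (w + 1) (wn w (u ++ (a ++ v)) []) (wn w (u ++ (b ++ v)) []) := by
  obtain ⟨u1, u2, rfl, hl, hu⟩ : ∃ u1 u2 : List Bool, u = u1 ++ u2 ∧ u2.length ≤ w ∧
      (u1 = [] ∨ u2.length = w) := by
    refine ⟨u.take (u.length - w), u.drop (u.length - w), (List.take_append_drop _ _).symm, ?_, ?_⟩
    · rw [List.length_drop]; omega
    · by_cases h : u.length ≤ w
      · left
        have : u.length - w = 0 := by omega
        rw [this]; rfl
      · right
        rw [List.length_drop]; omega
  have hA : wn w u1 (u2 ++ (a ++ v)) = wn w u1 (u2 ++ (b ++ v)) := by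
    rcases hu with hu | hu
    · subst hu; rfl
    · apply wn_congr
      rw [← hu, List.take_left, List.take_left]
  refine ⟨wn w u1 (u2 ++ (a ++ v)), wn w u2 (a ++ v) ++ wn w a v, wn w u2 (b ++ v) ++ wn w b v,
    wn w v [], ?_, ?_, ?_, ?_⟩
  · rw [wn_append, wn_append]
    simp only [List.append_nil]
    rw [wn_append]
    simp
  · rw [hA, wn_append, wn_append]
    simp only [List.append_nil]
    rw [wn_append]
    simp
  · rw [wt_append, wt_wn, wt_wn]; omega
  · rw [wt_append, wt_wn, wt_wn]; omega

end Pool.Agent.EHW
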