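import Pool.Agent.EHW.Blk

/-!
# EHW (MP_7d1a15_lc): one level of the length controlled parse
-/

set_option autoImplicit false

namespace Pool.Agent.EHW

open Pool.Agent.EHD

/-- `l` and `l'` have a common beginning and a common end, between them items of total length at
most `Z`. -/
def NearW (Z : ℕ) (l l' : List Item) : Prop :=
  ∃ A d d' B, l = A ++ (d ++ B) ∧ l' = A ++ (d' ++ B) ∧ wt d ≤ Z ∧ wt d' ≤ Z

/-- colours of the items, by coin tossing with the names -/
noncomputable def colI (R : ℕ) (l : List Item) : List ℕ := toss^[R] (l.map (fun p => code p.2))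

/-- flagged items -/
noncomputable def flI (R : ℕ) (l : List Item) : List (Item × Bool) := l.zip (fl (colI R l))

/-- the blocks -/
noncomputable def blk (R : ℕ) (l : List Item) : List (Item × List Item) := (cut (flI R l)).2

/-- one level: the groups of weight at least `b` in the blocks become the new items -/
noncomputable def stp (R b : ℕ) (l : List Item) : List Item :=
  ((blk R l).map (fun g => groups b (itm g))).flatten.map mrg

lemma length_colI (R : ℕ) (l : List Item) : (colI R l).length = l.length := by
  simp [colI, length_iter]

lemma length_flI (R : ℕ) (l : List Item) : (flI R l).length = l.length := by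
  simp [flI, length_colI]

lemma flI_fst (R : ℕ) (l : List Item) : (flI R l).map Prod.fst = l := by
  unfold flI
  apply List.map_fst_zip
  simp [length_colI]

lemma flI_take (R : ℕ) (r r' : List Item) (p : ℕ) (h : r.take p = r'.take p) :
    (flI R r).take (p - (R + 1)) = (flI R r').take (p - (R + 1)) := by
  unfold flI
  have hz : ∀ (a : List Item) (b : List Bool) (k : ℕ),
      (a.zip b).take k = (a.take k).zip (b.take k) := by
    intro a b k
    simp only [List.zip]
    exact List.take_zipWith
  rw [hz, hz]
  have h1 : (r.map (fun p => code p.2)).take p = (r'.map (fun p => code p.2)).take p := by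
    rw [← List.map_take, ← List.map_take, h]
  have h2 := iter_take R _ _ p h1
  have h3 := fl_take _ _ _ h2
  rw [Nat.sub_sub] at h3
  have h4 : r.take (p - (R + 1)) = r'.take (p - (R + 1)) := by
    have := congrArg (List.take (p - (R + 1))) h
    rwa [List.take_take, List.take_take, min_eq_left (Nat.sub_le _ _)] at this
  rw [h4]
  congr 1

lemma flI_append (R : ℕ) (b : Item) (Y : List Item) :
    ∃ V, ∀ X, ∃ T, flI R (X ++ b :: Y) = T ++ V ∧ T.length = X.length + 1 := by
  set K := colI R (b :: Y) with hK
  have hKl : K.length = Y.length + 1 := by rw [hK, length_colI]; simp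
  obtain ⟨c, K', hc⟩ : ∃ c K', K = c :: K' := by
    cases hK2 : K with
    | nil => rw [hK2] at hKl; simp at hKl
    | cons c K' => exact ⟨c, K', rfl⟩
  refine ⟨Y.zip (fl' c K'), fun X => ?_⟩
  obtain ⟨T1, h1, l1⟩ := iter_append R (X.map (fun p => code p.2))
    ((b :: Y).map (fun p => code p.2))
  have h2 : colI R (X ++ b :: Y) = T1 ++ c :: K' := by
    rw [← hc, hK]
    unfold colI
    rw [List.map_append, h1]
  obtain ⟨T2, h3, l2⟩ := fl_append T1 c K'
  refine ⟨(X ++ [b]).zip T2, ?_, ?_⟩
  · unfold flI
    rw [h2, h3]
    have : X ++ b :: Y = (X ++ [b]) ++ Y := by simp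
    rw [this]
    apply List.zip_append
    simp [l2, l1]
  · simp [l2, l1]

lemma cut_flI_fst (R : ℕ) (r : List Item) : (cut (flI R r)).1 = [] := by
  unfold flI
  cases r with
  | nil => simp [cut]
  | cons a r =>
    cases hK : colI R (a :: r) with
    | nil => have := length_colI R (a :: r); rw [hK] at this; simp at this
    | cons c K => simp [fl, cut]

lemma blk_bound (R : ℕ) (r : List Item) (hadj : Adj (colI R r))
    (hlt : ∀ c ∈ colI R r, c < 6) : ∀ g ∈ blk R r, g.2.length ≤ 10 := by
  unfold blk flI
  cases r with
  | nil => simp [cut]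
  | cons x r =>
    cases hK : colI R (x :: r) with
    | nil => simp [fl, cut]
    | cons a K =>
      rw [hK] at hadj hlt
      obtain ⟨i1, i2⟩ := block_bound K a r hadj hlt
      simp only [fl, List.zip_cons_cons, cut]
      intro g hg
      rcases List.mem_cons.1 hg with hg | hg
      · subst hg
        refine i1.trans ?_
        have := hlt a (by simp)
        cases K with
        | nil => simp [bd]
        | cons c K => simp only [bd]; split_ifs <;> omega
      · exact i2 g hg

lemma blk_content (R : ℕ) (l : List Item) : ((blk R l).map itm).flatten = l := by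
  have h1 := cut_content (flI R l)
  rw [cut_flI_fst, List.nil_append, flI_fst] at h1
  exact h1

lemma fl'_blocks_ne {α : Type*} (K : List ℕ) : ∀ (a : ℕ) (r : List α), r.length = K.length →
    ∀ g ∈ (cut (r.zip (fl' a K))).2, g.2 ≠ [] := by
  induction K with
  | nil => intro a r _; simp [fl', cut]
  | cons b K ih =>
    intro a r hr
    cases r with
    | nil => simp [cut]
    | cons x r =>
      simp only [List.length_cons, Nat.add_right_cancel_iff] at hr
      cases K with
      | nil =>
        have : r = [] := List.length_eq_zero_iff.1 hr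
        subst this
        simp [fl', cut]
      | cons c K =>
        have ih' := ih b r hr
        by_cases hf : b < a ∧ b < c
        · have hd : decide (b < a ∧ b < c) = true := by simpa using hf
          simp only [fl', hd, List.zip_cons_cons, cut]
          intro g hg
          rcases List.mem_cons.1 hg with hg | hg
          · subst hg
            simp only
            cases r with
            | nil => simp at hr
            | cons y r =>
              cases K with
              | nil => simp [fl', cut]
              | cons d K =>
                have hd2 : decide (c < b ∧ c < d) = false := by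
                  simp; intro h; omega
                simp [fl', hd2, cut]
          · exact ih' g hg
        · have hd : decide (b < a ∧ b < c) = false := by simpa using hf
          simp only [fl', hd, List.zip_cons_cons, cut]
          exact ih'

/-- the first block, and the other blocks, which have at least two items -/
lemma blk_cons (R : ℕ) (x : Item) (r : List Item) :
    ∃ g0 G, blk R (x :: r) = g0 :: G ∧ (∀ g ∈ G, g.2 ≠ []) ∧ (∀ g ∈ G, ∀ p ∈ itm g, p ∈ r) := by
  unfold blk flI
  cases hK : colI R (x :: r) with
  | nil => have := length_colI R (x :: r); rw [hK] at this; simp at this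
  | cons a K =>
    simp only [fl, List.zip_cons_cons, cut]
    refine ⟨_, _, rfl, ?_, ?_⟩
    · apply fl'_blocks_ne
      have := length_colI R (x :: r)
      rw [hK] at this
      simpa using this.symm
    · intro g hg p hp
      have h1 := cut_content (r.zip (fl' a K))
      have h2 : (itm g) ∈ (cut (r.zip (fl' a K))).2.map (fun g => g.1 :: g.2) :=
        List.mem_map_of_mem (f := fun g : Item × List Item => g.1 :: g.2) hg
      have h3 : p ∈ (r.zip (fl' a K)).map Prod.fst := by
        rw [← h1]
        exact List.mem_append_right _ (List.mem_flatten_of_mem h2 hp)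
      rw [List.mem_map] at h3
      obtain ⟨q, hq, rfl⟩ := h3
      exact (List.of_mem_zip hq).1

lemma blk_nil (R : ℕ) : blk R [] = [] := by simp [blk, flI, cut]

/-- invariant: the items have lengths between `a` (except perhaps the first one) and `4 a`, the
names are different -/
structure Inv (a : ℕ) (l : List Item) : Prop where
  ub : ∀ p ∈ l, p.1.length ≤ 4 * a
  lb : ∀ p ∈ l.tail, a ≤ p.1.length
  nd : (l.map Prod.snd).Nodup

lemma flat_groups (b : ℕ) (L : List (Item × List Item)) :
    ((L.map (fun g => groups b (itm g))).flatten).flatten = (L.map itm).flatten := by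
  induction L with
  | nil => rfl
  | cons g L ih => simp [groups_flatten, ih]

lemma stp_names (R b : ℕ) (l : List Item) :
    ((stp R b l).map Prod.snd).Sublist (l.map Prod.snd) := by
  unfold stp
  have h := names_mrg ((blk R l).map (fun g => groups b (itm g))).flatten (by
    intro g hg
    rw [List.mem_flatten] at hg
    obtain ⟨L, hL, hg⟩ := hg
    rw [List.mem_map] at hL
    obtain ⟨g0, -, rfl⟩ := hL
    exact groups_ne b _ g hg)
  rwa [flat_groups, blk_content] at h

lemma stp_content (R b : ℕ) (l : List Item) :
    ((stp R b l).map Prod.fst).flatten = (l.map Prod.fst).flatten := by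
  unfold stp
  rw [content_mrg, flat_groups, blk_content]

lemma stp_head (R b : ℕ) (l : List Item) :
    ((stp R b l).map Prod.snd).head? = (l.map Prod.snd).head? := by
  unfold stp
  have h := head_mrg ((blk R l).map (fun g => groups b (itm g))).flatten (by
    intro g hg
    rw [List.mem_flatten] at hg
    obtain ⟨L, hL, hg⟩ := hg
    rw [List.mem_map] at hL
    obtain ⟨g0, -, rfl⟩ := hL
    exact groups_ne b _ g hg)
  rwa [flat_groups, blk_content] at h

lemma inv_stp {R a : ℕ} {l : List Item} (h : Inv a l) : Inv (2 * a) (stp R (2 * a) l) := by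
  refine ⟨?_, ?_, h.nd.sublist (stp_names _ _ _)⟩
  · intro p hp
    unfold stp at hp
    rw [List.mem_map] at hp
    obtain ⟨g, hg, rfl⟩ := hp
    rw [List.mem_flatten] at hg
    obtain ⟨L, hL, hg⟩ := hg
    rw [List.mem_map] at hL
    obtain ⟨g0, hg0, rfl⟩ := hL
    rw [length_mrg]
    have h1 := (groups_wt (2 * a) (4 * a) (itm g0) (by
      intro q hq
      apply h.ub
      rw [← blk_content R l]
      exact List.mem_flatten_of_mem (List.mem_map_of_mem hg0) hq)).1 g hg
    omega
  · cases l with
    | nil => simp [stp, blk_nil]
    | cons x r =>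
      obtain ⟨g0, G, h1, h2, h3⟩ := blk_cons R x r
      have hlb : ∀ q ∈ r, a ≤ q.1.length := fun q hq => h.lb q (by simpa using hq)
      have hub : ∀ g ∈ g0 :: G, ∀ q ∈ itm g, q.1.length ≤ 4 * a := by
        intro g hg q hq
        apply h.ub
        rw [← blk_content R (x :: r), h1]
        exact List.mem_flatten_of_mem (List.mem_map_of_mem hg) hq
      intro p hp
      unfold stp at hp
      rw [h1] at hp
      simp only [List.map_cons, List.flatten_cons, List.map_append] at hp
      -- the groups of the first block
      have key : ∀ q ∈ ((G.map (fun g => groups (2 * a) (itm g))).flatten.map mrg),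
          2 * a ≤ q.1.length := by
        intro q hq
        rw [List.mem_map] at hq
        obtain ⟨g, hg, rfl⟩ := hq
        rw [List.mem_flatten] at hg
        obtain ⟨L, hL, hg⟩ := hg
        rw [List.mem_map] at hL
        obtain ⟨g1, hg1, rfl⟩ := hL
        rw [length_mrg]
        refine (groups_wt (2 * a) (4 * a) (itm g1) (hub g1 (by simp [hg1]))).2.2 ?_ g hg
        have h4 := le_wt (itm g1) (fun q hq => hlb q (h3 g1 hg1 q hq))
        have h5 : 2 ≤ (itm g1).length := by
          have := List.length_pos_iff.2 (h2 g1 hg1)
          simp only [itm, List.length_cons]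
          omega
        have h6 : 2 * a ≤ (itm g1).length * a := Nat.mul_le_mul_right _ h5
        omega
      have key0 := (groups_wt (2 * a) (4 * a) (itm g0) (hub g0 (by simp))).2.1
      cases hg : groups (2 * a) (itm g0) with
      | nil =>
        rw [hg] at hp
        simp only [List.map_nil, List.nil_append] at hp
        exact key p (List.mem_of_mem_tail hp)
      | cons y t =>
        rw [hg] at hp key0
        simp only [List.map_cons, List.cons_append, List.tail_cons, List.mem_append] at hp
        rcases hp with hp | hp
        · rw [List.mem_map] at hp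
          obtain ⟨z, hz, rfl⟩ := hp
          rw [length_mrg]
          exact key0 z (by simpa using hz)
        · exact key p hp

lemma adj_colI (R : ℕ) {l : List Item} (h : (l.map Prod.snd).Nodup) : Adj (colI R l) := by
  apply adj_iter
  unfold Adj
  have h2 : l.map (fun p => code p.2) = (l.map Prod.snd).map code := by
    rw [List.map_map]; rfl
  rw [h2]
  have h3 : ((l.map Prod.snd).map code).Nodup := h.map code_inj
  exact List.Pairwise.isChain h3

lemma colI_lt (n : ℕ) (l : List Item) (h : ∀ u ∈ l, u.2.length ≤ n) :
    ∀ c ∈ colI (rd n) l, c < 6 := by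
  unfold colI rd
  have e : logStar n + 3 = (logStar n + 2) + 1 := rfl
  rw [e, Function.iterate_succ_apply']
  have hc : ∀ a ∈ l.map (fun p => code p.2), a < 2 ^ (n + 1) := by
    intro a ha
    rw [List.mem_map] at ha
    obtain ⟨p, hp, rfl⟩ := ha
    refine (code_lt p.2).trans_le ?_
    apply Nat.pow_le_pow_right (by norm_num)
    have := h p hp
    omega
  obtain ⟨h1, -⟩ := iter_lt (logStar n + 2) (Nat.succ_pos n) hc
  have h2 := iter_bt_final n
  have h3 : ∀ a ∈ toss^[logStar n + 2] (l.map (fun p => code p.2)), a < 2 ^ 3 := by
    intro a ha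
    exact (h1 a ha).trans_le (Nat.pow_le_pow_right (by norm_num) h2)
  exact toss_lt (by norm_num) h3

/-- The zone grows by at most `(R + 23) * 4 a` at the level `a`. -/
lemma near_stp {n a Z : ℕ} {l l' : List Item} (h : Inv a l) (h' : Inv a l')
    (hn : ∀ u ∈ l, u.2.length ≤ n) (hn' : ∀ u ∈ l', u.2.length ≤ n) (hZ : NearW Z l l') :
    NearW (Z + (rd n + 23) * (4 * a)) (stp (rd n) (2 * a) l) (stp (rd n) (2 * a) l') := by
  obtain ⟨A, d, d', B, h1, h2, hd, hd'⟩ := hZ
  set R := rd n with hR
  set u := flI R l with hu
  set u' := flI R l' with hu'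
  have hlu : u.length = A.length + (d.length + B.length) := by simp [hu, length_flI, h1]
  have hlu' : u'.length = A.length + (d'.length + B.length) := by simp [hu', length_flI, h2]
  have hp : u.take (A.length - (R + 1)) = u'.take (A.length - (R + 1)) := by
    apply flI_take; simp [h1, h2]
  have hs : u.drop (u.length - (B.length - 1)) = u'.drop (u'.length - (B.length - 1)) := by
    cases B with
    | nil => simp
    | cons b B =>
      obtain ⟨V, hV⟩ := flI_append R b B
      obtain ⟨T, hT, hl⟩ := hV (A ++ d)
      obtain ⟨T', hT', hl'⟩ := hV (A ++ d')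
      have e1 : u = T ++ V := by rw [← hT, hu, h1]; simp
      have e2 : u' = T' ++ V := by rw [← hT', hu', h2]; simp
      have l1 : u.length - ((b :: B).length - 1) = T.length := by
        rw [hlu, hl]; simp; omega
      have l2 : u'.length - ((b :: B).length - 1) = T'.length := by
        rw [hlu', hl']; simp; omega
      rw [l1, l2, e1, e2, List.drop_left, List.drop_left]
  obtain ⟨e, e', h3, h4, h5, h6⟩ := split_common u u' (A.length - (R + 1)) (B.length - 1) hp hs
    (by omega) (by omega)
  set P := u.take (A.length - (R + 1)) with hPdef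
  set S := u.drop (u.length - (B.length - 1)) with hSdef
  have hPl : P.length = A.length - (R + 1) := by rw [hPdef, List.length_take]; omega
  have hSl : S.length = B.length - 1 := by rw [hSdef, List.length_drop]; omega
  have hc := cut_flI_fst R l
  have hb := blk_bound R l (adj_colI R h.nd) (colI_lt n l hn)
  have hc' := cut_flI_fst R l'
  have hb' := blk_bound R l' (adj_colI R h'.nd) (colI_lt n l' hn')
  unfold blk at hb hb'
  rw [← hu] at hc hb
  rw [← hu'] at hc' hb'
  rw [h3] at hc hb
  obtain ⟨Q, D, D', W, k1, k2, k3, k4⟩ := near_blocks P e e' S 10 hc hb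
  have b1 : blk R l = Q ++ (D ++ W) := by
    rw [← k1, ← h3]; rfl
  have b2 : blk R l' = Q ++ (D' ++ W) := by
    rw [← k2, ← h4]; rfl
  have c1 := blk_content R l
  have c2 := blk_content R l'
  rw [b1, h1] at c1
  rw [b2, h2] at c2
  simp only [List.map_append, List.flatten_append] at c1 c2
  have hAc : ∀ p ∈ A, p.1.length ≤ 4 * a := fun p hp => h.ub p (by rw [h1]; simp [hp])
  have hBc : ∀ p ∈ B, p.1.length ≤ 4 * a := fun p hp => h.ub p (by rw [h1]; simp [hp])
  have m1 := wt_mid A d B _ _ _ (R + 12) 11 (4 * a) c1.symm (by omega) (by omega) hAc hBc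
  have m2 := wt_mid A d' B _ _ _ (R + 12) 11 (4 * a) c2.symm (by omega) (by omega) hAc hBc
  refine ⟨(Q.map (fun g => groups (2 * a) (itm g))).flatten.map mrg,
    (D.map (fun g => groups (2 * a) (itm g))).flatten.map mrg,
    (D'.map (fun g => groups (2 * a) (itm g))).flatten.map mrg,
    (W.map (fun g => groups (2 * a) (itm g))).flatten.map mrg, ?_, ?_, ?_, ?_⟩
  · unfold stp
    rw [b1]
    simp
  · unfold stp
    rw [b2]
    simp
  · rw [wt_mrg, flat_groups]
    have : R + 12 + 11 = R + 23 := rfl
    rw [this] at m1
    omega
  · rw [wt_mrg, flat_groups]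
    have : R + 12 + 11 = R + 23 := rfl
    rw [this] at m2
    omega

end Pool.Agent.EHW
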